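import Mathlib
import Pool.Agent.Q17.Stir.Data

/-!
# MP_6194d2_nt: the stable 2-adic class count `μ_k` is not monotone in `k`

`μ_70 = 34` and `μ_71 = 32`.
-/

set_option autoImplicit false

namespace Pool.Agent.Results.MP_6194d2_nt.NotMonotone

open Pool.Agent.Q17.Stir

/-- Both `μ_70` and `μ_71` exist, `μ_70 = 34`, `μ_71 = 32`; so `μ_k ≤ μ_{k'}` fails for some
`1 ≤ k < k'` for which both limits exist. -/
theorem result : IsMu 70 34 ∧ IsMu 71 32 ∧
    ¬ ∀ k k' μ μ' : ℕ, 1 ≤ k → k < k' → IsMu k μ → IsMu k' μ' → μ ≤ μ' := by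
  refine ⟨isMu70, isMu71, fun H => ?_⟩
  have := H 70 71 34 32 (by norm_num) (by norm_num) isMu70 isMu71
  omega

end Pool.Agent.Results.MP_6194d2_nt.NotMonotone
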